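import Pool.Agent.H49.SW.Stm

set_option autoImplicit false

/-!
# Codes with short words, R2: the climb
-/

namespace Pool.Agent.H35.SW

open Finset MvPolynomial
open Pool.Agent.H49.SW

lemma exists_min {β : Type} [Nonempty β] (φ : β → ℤ) (h : ∀ b, 0 ≤ φ b) :
    ∃ b, ∀ b', φ b ≤ φ b' := by
  obtain ⟨n, ⟨b, rfl⟩, hb⟩ := (wellFounded_lt (α := ℕ)).has_min
    (Set.range fun b => (φ b).toNat) (Set.range_nonempty _)
  refine ⟨b, fun b' => ?_⟩
  have h1 := hb _ ⟨b', rfl⟩
  have h2 := h b
  have h3 := h b'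
  simp only [not_lt] at h1
  omega

lemma evt_sum {α : Type} [Fintype α] (t : α → ℕ) (p : α → MvPolynomial α ℤ) :
    evt t (∑ x : α, X x * p x) = ∑ x, (t x : ℤ) * evt t (p x) := by
  simp [evt, map_sum]

/-- R2: the climb. -/
theorem sClimb : SClimb := by
  intro α _ _ F G a b e e' M h t τ hτ ht
  have ht1 : ∀ x, 1 ≤ t x := fun x => hτ.trans (ht x)
  set T : ℤ := ∑ x, (t x : ℤ) with hT
  have hTτ : 2 * (τ : ℤ) ≤ T := by
    have h1 : ∑ _x : α, (τ : ℤ) ≤ T := Finset.sum_le_sum fun x _ => by exact_mod_cast ht x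
    rw [Finset.sum_const, Finset.card_univ, nsmul_eq_mul] at h1
    have h2 : (2 : ℤ) ≤ (Fintype.card α : ℤ) := by exact_mod_cast h.two
    have h3 : (0 : ℤ) ≤ τ := by positivity
    nlinarith
  have hτ1 : (1 : ℤ) ≤ τ := by exact_mod_cast hτ
  have hT2 : 2 ≤ T := by linarith
  -- the recursions at `t`
  have eA : ∀ g, ∑ x, (t x : ℤ) * evt t (a (g ++ [x])) = evt t (a g) - 1 + e g * evt t G := by
    intro g
    rw [← evt_sum, h.recA]
    simp [evt]
  have eB : ∀ f, ∑ x, (t x : ℤ) * evt t (b (x :: f)) = evt t (b f) - 1 + e' f * evt t F := by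
    intro f
    rw [← evt_sum t (fun x => b (x :: f)), h.recB]
    simp [evt]
  -- the minima
  obtain ⟨g, hg⟩ := exists_min (fun g => evt t (a g)) (h.posA t ht1)
  obtain ⟨f, hf⟩ := exists_min (fun f => evt t (b f)) (h.posB t ht1)

  have low : ∀ (φ : α → ℤ) (m : ℤ), (∀ x, m ≤ φ x) → T * m ≤ ∑ x, (t x : ℤ) * φ x := by
    intro φ m hm
    rw [hT, Finset.sum_mul]
    exact Finset.sum_le_sum fun x _ => mul_le_mul_of_nonneg_left (hm x) (by positivity)
  have hf1 : e' f = 1 := by
    rcases h.e01' f with h0 | h0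
    · exfalso
      have h1 := low (fun x => evt t (b (x :: f))) _ (fun x => hf (x :: f))
      rw [eB f, h0] at h1
      have h2 := h.posB t ht1 f
      nlinarith
    · exact h0
  have hg1 : e g = 1 := by
    rcases h.e01 g with h0 | h0
    · exfalso
      have h1 := low (fun x => evt t (a (g ++ [x]))) _ (fun x => hg (g ++ [x]))
      rw [eA g, h0] at h1
      have h2 := h.posA t ht1 g
      nlinarith
    · exact h0
  refine ⟨g, hg1, ?_⟩
  obtain ⟨w, hw⟩ := h.ne g f
  have hw0 := h.cutR g f w hw hf1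
  set m0 : ℤ := evt t (a g) with hm0
  set v : ℤ := evt t G with hv
  have hm00 : 0 ≤ m0 := h.posA t ht1 g
  have hv0 : 0 < v := h.posG t ht1
  have hR1 : 1 ≤ 1 + (T - 1) * m0 := by nlinarith
  set R : ℤ := 1 + (T - 1) * m0 with hR
  -- increments
  have hq0 : ∀ u, 0 ≤ evt t (a (g ++ u)) - m0 := fun u => by have := hg (g ++ u); linarith
  have hsum : ∀ u, ∑ x, (t x : ℤ) * (evt t (a (g ++ u ++ [x])) - m0) =
      (evt t (a (g ++ u)) - m0) + e (g ++ u) * v - R := by
    intro u
    have h1 : ∑ x, (t x : ℤ) * (evt t (a (g ++ u ++ [x])) - m0) =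
        ∑ x, (t x : ℤ) * evt t (a (g ++ u ++ [x])) - T * m0 := by
      rw [hT, Finset.sum_mul, ← Finset.sum_sub_distrib]
      exact Finset.sum_congr rfl fun x _ => by ring
    rw [h1, eA, hR]
    ring
  have step : ∀ u x, (τ : ℤ) * (evt t (a (g ++ (u ++ [x]))) - m0) ≤
      (evt t (a (g ++ u)) - m0) + v - R := by
    intro u x
    have h1 : (t x : ℤ) * (evt t (a (g ++ u ++ [x])) - m0) ≤
        ∑ x, (t x : ℤ) * (evt t (a (g ++ u ++ [x])) - m0) :=
      Finset.single_le_sum (f := fun x => (t x : ℤ) * (evt t (a (g ++ u ++ [x])) - m0))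
        (fun y _ => by
          have h2 := hq0 (u ++ [y])
          rw [← List.append_assoc] at h2
          positivity) (Finset.mem_univ x)
    rw [hsum] at h1
    have h2 := hq0 (u ++ [x])
    rw [← List.append_assoc] at h2 ⊢
    have h3 : (τ : ℤ) * (evt t (a (g ++ u ++ [x])) - m0) ≤
        (t x : ℤ) * (evt t (a (g ++ u ++ [x])) - m0) :=
      mul_le_mul_of_nonneg_right (by exact_mod_cast ht x) h2
    have h4 : e (g ++ u) * v ≤ v := by
      rcases h.e01 (g ++ u) with h0 | h0
      · rw [h0]; linarith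
      · rw [h0]; linarith
    linarith
  have hqw : R ≤ evt t (a (g ++ w)) - m0 := by
    have h1 := hsum w
    rw [hw0] at h1
    have h2 : 0 ≤ ∑ x, (t x : ℤ) * (evt t (a (g ++ w ++ [x])) - m0) :=
      Finset.sum_nonneg fun x _ => by
        have h2 := hq0 (w ++ [x])
        rw [← List.append_assoc] at h2
        positivity
    linarith
  have hvR : R < v := by
    by_contra hc
    have hc' : v ≤ R := not_lt.1 hc
    have hz : ∀ u : List α, evt t (a (g ++ u)) - m0 ≤ 0 := by
      intro u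
      induction u using List.reverseRecOn with
      | nil => simp [hm0]
      | append_singleton u x ih =>
        have h1 := step u x
        have h2 := hq0 (u ++ [x])
        by_contra h3
        have h4 : 1 ≤ evt t (a (g ++ (u ++ [x]))) - m0 := by
          have := not_le.1 h3
          linarith
        nlinarith
    have := hz w
    linarith
  have hind : ∀ u : List α, ((τ : ℤ) - 1) * (evt t (a (g ++ u)) - m0) < v - R := by
    intro u
    induction u using List.reverseRecOn with
    | nil =>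
      simp only [List.append_nil, hm0, sub_self, mul_zero]
      linarith
    | append_singleton u x ih =>
      have h1 := step u x
      have h2 : ((τ : ℤ) - 1) * ((τ : ℤ) * (evt t (a (g ++ (u ++ [x]))) - m0)) ≤
          ((τ : ℤ) - 1) * ((evt t (a (g ++ u)) - m0) + v - R) :=
        mul_le_mul_of_nonneg_left h1 (by linarith)
      have h3 : (τ : ℤ) * (((τ : ℤ) - 1) * (evt t (a (g ++ (u ++ [x]))) - m0)) <
          (τ : ℤ) * (v - R) := by
        calc (τ : ℤ) * (((τ : ℤ) - 1) * (evt t (a (g ++ (u ++ [x]))) - m0))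
            = ((τ : ℤ) - 1) * ((τ : ℤ) * (evt t (a (g ++ (u ++ [x]))) - m0)) := by ring
          _ ≤ ((τ : ℤ) - 1) * ((evt t (a (g ++ u)) - m0) + v - R) := h2
          _ = ((τ : ℤ) - 1) * (evt t (a (g ++ u)) - m0) + ((τ : ℤ) - 1) * (v - R) := by ring
          _ < (v - R) + ((τ : ℤ) - 1) * (v - R) := by linarith
          _ = (τ : ℤ) * (v - R) := by ring
      exact lt_of_mul_lt_mul_left h3 (by linarith)
  have h1 := hind w
  have h2 : ((τ : ℤ) - 1) * R ≤ ((τ : ℤ) - 1) * (evt t (a (g ++ w)) - m0) :=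
    mul_le_mul_of_nonneg_left hqw (by linarith)
  have h3 : (τ : ℤ) * R = ((τ : ℤ) - 1) * R + R := by ring
  rw [h3]
  linarith

end Pool.Agent.H35.SW
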